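import Pool.Agent.U621.CZ.Main

/-!
# The critical values of the canopy tree times `ℤ` and of the canopy tree times `ℕ` are equal

For every `d ≥ 3` and every canopy tree `C` of degree `d`:
`p_c(C × ℤ) = p_c(C × ℕ)`. More precisely the two products percolate at exactly the same parameters `p ∈ [0, 1]`,
and neither of them percolates at the common critical value.

All definitions of the statement are in the starting file `Pool.Agent.Helper98K9.CP.Perc`:

* `IsCanopy d C l`: `C` is a canopy tree of degree `d` with the level function `l`;
* `line`, `halfLine`: the graphs `ℤ` and `ℕ`; `C.boxProd H` is the Cartesian product (Mathlib);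
* `perc G p`: Bernoulli bond percolation on `G`, a measure on `G.edgeSet → Bool`;
* `InfCl G ω x`: the open cluster of `x` is infinite.

The proof: if `C × ℤ` percolates at `p` then, as there are at most two infinite clusters, far apart vertices of
the ray are connected with a probability bounded below; this gives a finite criterion which is satisfied on an
open set of parameters, and which implies percolation on `C × ℕ`. The criterion, the theorem on at most two
infinite clusters and the step from the criterion to `C × ℕ` are from the library `Helper98K9.CP` (starting files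
for MP_44e654_pr and MP_b6f052_pr); the first step, there for `C × ℕ`, is carried out for `C × ℤ` in
`Pool.Agent.U621.CZ`.
-/

set_option autoImplicit false

namespace Pool.Agent.Results.MP_3f1d68_pr.EqualCriticalValues

open Pool.Agent.Helper98K9.CP MeasureTheory
open scoped NNReal

/-- the probability that there is an infinite open cluster is positive -/
def Percolates {V : Type} (G : SimpleGraph V) (p : ℝ≥0) : Prop :=
  0 < perc G p {ω | ∃ x, InfCl G ω x}

/-- the critical value `p_c(G) = inf {p ∈ [0, 1] : P_p(there is an infinite open cluster) > 0}` -/
noncomputable def criticalValue {V : Type} (G : SimpleGraph V) : ℝ≥0 :=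
  sInf {p : ℝ≥0 | p ≤ 1 ∧ Percolates G p}

/-- The hypothesis of the theorem is satisfied by a concrete graph: the vertices are the pairs
`(k, m)` of natural numbers, `k` is the level and `(k + 1, m / (d - 1))` the parent. -/
theorem exists_canopy (d : ℕ) (hd : 3 ≤ d) : IsCanopy d (canopy d) (fun x => x.1) :=
  isCanopy_canopy d hd

/-- **`p_c(C × ℤ) = p_c(C × ℕ)`** for every `d ≥ 3` and every canopy tree `C` of degree `d`. Moreover the two
products percolate at the same parameters `p ∈ [0, 1]`, among which there are some `p < 1`, and there is no
percolation at the critical value on either of them. -/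
theorem result (d : ℕ) (hd : 3 ≤ d) (V : Type) (C : SimpleGraph V) (l : V → ℕ)
    (hC : IsCanopy d C l) :
    criticalValue (C.boxProd line) = criticalValue (C.boxProd halfLine) ∧
    (∃ p : ℝ≥0, p < 1 ∧ Percolates (C.boxProd halfLine) p) ∧
    (∀ p : ℝ≥0, p ≤ 1 → (Percolates (C.boxProd line) p ↔ Percolates (C.boxProd halfLine) p)) ∧
    ¬ Percolates (C.boxProd line) (criticalValue (C.boxProd line)) ∧
    ¬ Percolates (C.boxProd halfLine) (criticalValue (C.boxProd halfLine)) := by
  have heq : ∀ p : ℝ≥0, p ≤ 1 → (Percolates (C.boxProd line) p ↔ Percolates (C.boxProd halfLine) p) :=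
    fun p hp => U621.CZ.perco_eq hd hC p hp
  have hcv : criticalValue (C.boxProd line) = criticalValue (C.boxProd halfLine) := by
    unfold criticalValue
    congr 1
    ext p
    exact and_congr_right fun hp => heq p hp
  obtain ⟨q, hq, hperc⟩ := U621.CZ.perco_down hd hC 1 le_rfl
    ((heq 1 le_rfl).2 (U621.CZ.perco_one hd hC))
  have hlt : criticalValue (C.boxProd line) < 1 := by
    rw [hcv]
    exact lt_of_le_of_lt (csInf_le' ⟨hq.le, hperc⟩) hq
  have hno : ¬ Percolates (C.boxProd line) (criticalValue (C.boxProd line)) := by
    intro h
    obtain ⟨p', hlt', hp'⟩ := U621.CZ.perco_down hd hC _ hlt.le h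
    have hp1 : p' ≤ 1 := (hlt'.trans hlt).le
    have h1 : criticalValue (C.boxProd line) ≤ p' := csInf_le' ⟨hp1, (heq p' hp1).2 hp'⟩
    exact absurd hlt' (not_lt.2 h1)
  refine ⟨hcv, ⟨q, hq, hperc⟩, heq, hno, fun h => hno ?_⟩
  rw [← hcv] at h
  exact (heq _ hlt.le).2 h

end Pool.Agent.Results.MP_3f1d68_pr.EqualCriticalValues
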